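import Pool.Agent.R573.CM.Two
import Pool.Agent.R573.CM.Lower

/-!
# Chromatic memory over one-player games and over arbitrary games

For every `n ≥ 2` the `ω`-regular objective `W_n` (two different letters of an alphabet with `n`
letters occur infinitely often) has chromatic memory `2` over one-player games with an initial
vertex, and chromatic memory `n` over arbitrary games with an initial vertex.
-/

set_option autoImplicit false

namespace Pool.Agent.Results.MP_369bda_lc.InitialVertexGap

open Pool.Agent.R573.CM

theorem result : ∀ n : ℕ, 2 ≤ n →
    OmegaRegular (twoLetters n) ∧
      IsChromaticMemory OnePlayer (twoLetters n) 2 ∧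
      IsChromaticMemory (fun _ => True) (twoLetters n) n := fun n hn =>
  ⟨omegaRegular_twoLetters n, isChromaticMemory_onePlayer n hn,
    suffices_all n (by omega), fun k hk => all_lower n hn k hk⟩

end Pool.Agent.Results.MP_369bda_lc.InitialVertexGap
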