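import Pool.Agent.R573.CU.Product
import Pool.Agent.R573.PL.Start

/-!
# The one-to-two-player lift for the chromatic memory of omega-regular objectives

For every omega-regular objective over a finite alphabet the chromatic memory over one-player games
equals the chromatic memory over all games, for strategies which win from every vertex from which
Eve can win. Moreover each single memory which works for all one-player games works for all games.
The proof contains a proof of the case of one memory state (positional strategies).
-/

set_option autoImplicit false

namespace Pool.Agent.Results.MP_369bda_lc.OneToTwoPlayerLift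

open Pool.Agent.R573.CU

theorem result (S : Type) [Finite S] (W : Set (ℕ → S)) (hW : OmegaRegular W) :
    (∀ k : ℕ, IsChromaticMemory OnePlayer W k ↔ IsChromaticMemory AllGames W k) ∧
      ∀ (k : ℕ) (A : Memory S k), Works OnePlayer W A → Works AllGames W A := by
  have hworks : ∀ (k : ℕ) (A : Memory S k), Works OnePlayer W A → Works AllGames W A :=
    fun k A hA => works_of_lifted
      (suffices_all (omegaRegular_lifted hW hA) (suffices_lifted hA (finite_resid hW)))
  refine ⟨fun k => ?_, hworks⟩
  have h1 : {k | Suffices OnePlayer W k} = {k | Suffices AllGames W k} := by
    refine Set.ext fun k => ⟨fun h => ?_, fun h G _ => h G trivial⟩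
    obtain ⟨A, hA⟩ := exists_works h
    intro G _
    obtain ⟨s, -, hs⟩ := hworks k A hA G trivial
    exact ⟨s, hs⟩
  rw [IsChromaticMemory, IsChromaticMemory, h1]

end Pool.Agent.Results.MP_369bda_lc.OneToTwoPlayerLift
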